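import Pool.Agent.H608.Ge.PiE
import Pool.Agent.H608.Ge.NPow
import Pool.Agent.H608.Ge.Omit
import Pool.Agent.H608.Ge.Jn
import Mathlib

/-!
# The powers `n ^ π` and `n ^ e` for all `n` at once, with very few omitted terms

Leibniz's series is `π = ∑ (4 / (4 k + 1) - 4 / (4 k + 3))`, `k ≥ 0`, and `e` is the limit of
`b_k = (1 + 1 / k) ^ k`, so that `e = 2 ∏ b_(k + 1) / b_k`. For a set `E` of positive integers let `π_E` be the
series without the terms with `k ∈ E` and let `e_E` be the product without the factors with `k ∈ E`.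
There are sets `E` with at most `C log log log K` elements up to `K` such that all the numbers
`π_E ^ i * m ^ π_E * e_E ^ j * n ^ e_E` (`i, j ≥ 0`, `m, n ≥ 1`) are linearly independent over any given
countable ring `R` of real numbers, and all sums of these numbers with coefficients in `R`, except for the
elements of `R`, are normal in every integer base.
-/

set_option autoImplicit false

namespace Pool.Agent.Results.MP_ee2255_nt.AllBases

open Finset Filter Topology Metric
open Pool.Agent.H608.Sp Pool.Agent.H608.Ge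

/-- the digit of `x` in base `b` at position `i` after the point -/
noncomputable def digit (b : ℕ) (x : ℝ) (i : ℕ) : ℤ := ⌊x * (b : ℝ) ^ i⌋ % (b : ℤ)

open Classical in
/-- the tuple `x` is jointly normal in base `b`: every digit matrix with `n` rows and `m` columns
occurs along the positions with limiting frequency `b ^ (-(m * n))` -/
def JointlyNormal (b : ℕ) {n : ℕ} (x : Fin n → ℝ) : Prop :=
  ∀ m : ℕ, 1 ≤ m → ∀ D : Fin n → Fin m → Fin b,
    Tendsto (fun N : ℕ => (((Icc 1 N).filter fun i : ℕ =>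
      ∀ (j : Fin n) (t : Fin m), digit b (x j) (i + (t : ℕ)) = ((D j t : ℕ) : ℤ)).card : ℝ) / (N : ℝ))
      atTop (𝓝 (1 / (b : ℝ) ^ (m * n)))

/-- `A` has at least `H exp (- (log H) ^ (2 / 5))` elements in `[H, 2 H)`, for all large `H` -/
def NotTooSparse (A : Set ℕ) : Prop :=
  ∀ᶠ H : ℕ in atTop, H * Real.exp (-(Real.log H) ^ (2 / 5 : ℝ)) ≤
    (({k : ℕ | k ∈ A ∧ H ≤ k ∧ k < 2 * H}.ncard : ℕ) : ℝ)

open Classical in
/-- Leibniz's series for `π` without the pairs of terms with numbers in `E` -/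
noncomputable def piE (E : Set ℕ) : ℝ :=
  ∑' k : ℕ, if k ∈ E then 0 else 4 / (4 * (k : ℝ) + 1) - 4 / (4 * (k : ℝ) + 3)

/-- the sequence with limit `e` -/
noncomputable def bern (k : ℕ) : ℝ := (1 + 1 / (k : ℝ)) ^ k

open Classical in
/-- the product for `e` without the factors in `E` -/
noncomputable def eE (E : Set ℕ) : ℝ := 2 * ∏' n : ℕ, if n + 1 ∈ E then 1 else bern (n + 2) / bern (n + 1)

/-- `x ^ i * m ^ x` for `a = (i, m - 1)` -/
noncomputable def mon (a : ℕ × ℕ) (x : ℝ) : ℝ := x ^ a.1 * ((a.2 : ℝ) + 1) ^ x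

/-- the numbers `π_E ^ i * m ^ π_E * (e_E ^ j * n ^ e_E)` for `a = ((i, m - 1), (j, n - 1))` -/
noncomputable def mm (E : Set ℕ) (a : (ℕ × ℕ) × (ℕ × ℕ)) : ℝ := mon a.1 (piE E) * mon a.2 (eE E)

lemma jn_of_nt (b : ℕ) {n : ℕ} (x : Fin n → ℝ) (h : Pool.Agent.W206.ND.NT b x) :
    JointlyNormal b x := by
  intro m hm D
  have h1 := h m hm D
  refine h1.congr fun N => ?_
  congr 2

lemma piE_empty : piE ∅ = Real.pi := by
  unfold piE
  rw [← hasSum_up2_zero.tsum_eq]
  apply tsum_congr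
  intro k
  rw [if_neg (Set.notMem_empty _)]
  rfl

open Classical in
lemma piE_eq {E : Set ℕ} (h0 : 0 ∉ E) : piE E = 8 / 3 + ∑' n : ℕ, if n + 1 ∈ E then 0 else up2 (n + 1) := by
  have h1 : Summable fun k : ℕ => if k ∈ E then 0 else 4 / (4 * (k : ℝ) + 1) - 4 / (4 * (k : ℝ) + 3) := by
    refine (hasSum_up2_zero.summable.indicator {k | k ∉ E}).congr fun k => ?_
    simp only [Set.indicator, Set.mem_ofPred_eq]
    split_ifs <;> rfl
  unfold piE
  rw [h1.tsum_eq_zero_add, if_neg h0]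
  congr 1
  · norm_num

lemma bern_pos (k : ℕ) : 0 < bern k := by
  unfold bern
  positivity

lemma log_bern (n : ℕ) : Real.log (bern (n + 2) / bern (n + 1)) = ue (n + 1) := by
  rw [Real.log_div (bern_pos _).ne' (bern_pos _).ne']
  unfold bern ue
  rw [Real.log_pow, Real.log_pow]
  push_cast
  have e1 : (n : ℝ) + 1 + 1 = n + 2 := by ring
  rw [e1]

open Classical in
lemma eE_eq (E : Set ℕ) : eE E = Real.exp (Real.log 2 + ∑' n : ℕ, if n + 1 ∈ E then 0 else ue (n + 1)) := by
  have h1 : Summable fun n : ℕ => if n + 1 ∈ E then 0 else ue (n + 1) := by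
    refine (hasSum_ue.summable.indicator {n | n + 1 ∉ E}).congr fun n => ?_
    simp only [Set.indicator, Set.mem_ofPred_eq]
    split_ifs <;> rfl
  have h2 : ∀ n : ℕ, Real.log (if n + 1 ∈ E then 1 else bern (n + 2) / bern (n + 1)) =
      if n + 1 ∈ E then 0 else ue (n + 1) := by
    intro n
    split_ifs
    · exact Real.log_one
    · exact log_bern n
  unfold eE
  rw [← Real.rexp_tsum_eq_tprod (f := fun n : ℕ => if n + 1 ∈ E then 1 else bern (n + 2) / bern (n + 1))]
  · simp only [h2]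
    rw [Real.exp_add, Real.exp_log (by norm_num)]
  · intro n
    split_ifs
    · exact one_pos
    · exact div_pos (bern_pos _) (bern_pos _)
  · simp only [h2]
    exact h1

lemma eE_empty : eE ∅ = Real.exp 1 := by
  rw [eE_eq]
  simp only [Set.mem_empty_iff_false, if_false]
  rw [hasSum_ue.tsum_eq]
  congr 1
  ring

/-- the complex form of `mon` -/
noncomputable def monc (a : ℕ × ℕ) (w : ℂ) : ℂ := w ^ a.1 * Complex.exp (w * (Real.log ((a.2 : ℝ) + 1) : ℝ))

lemma monc_real (a : ℕ × ℕ) (x : ℝ) : monc a (x : ℂ) = (mon a x : ℂ) := by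
  unfold monc mon
  rw [Real.rpow_def_of_pos (by positivity), mul_comm (Real.log _) x]
  push_cast
  rfl

lemma monc_nat (a : ℕ × ℕ) (N : ℕ) : monc a ((N : ℝ) : ℂ) = (mnat a N : ℂ) := by
  rw [monc_real]
  unfold mon mnat
  rw [Real.rpow_natCast]

lemma monc_analytic (a : ℕ × ℕ) : AnalyticOnNhd ℂ (monc a) Set.univ :=
  (analyticOnNhd_id.pow _).mul ((analyticOnNhd_id.mul analyticOnNhd_const).cexp)

/-- the functions -/
noncomputable def F (R : Subring ℝ) (c : (ℕ × ℕ) × (ℕ × ℕ) →₀ R) (z : Fin 2 → ℂ) : ℂ :=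
  ∑ a ∈ c.support, (((c a : R) : ℝ) : ℂ) *
    (monc a.1 (((8 / 3 : ℝ) : ℂ) + z 0) * monc a.2 (Complex.exp ((Real.log 2 : ℝ) + z 1)))

lemma F_analytic (R : Subring ℝ) (c : (ℕ × ℕ) × (ℕ × ℕ) →₀ R) : AnalyticOnNhd ℂ (F R c) Set.univ := by
  unfold F
  have h0 : ∀ i : Fin 2, AnalyticOnNhd ℂ (fun z : Fin 2 → ℂ => z i) Set.univ := fun i =>
    (ContinuousLinearMap.proj (R := ℂ) (φ := fun _ : Fin 2 => ℂ) i).analyticOnNhd _
  apply Finset.analyticOnNhd_fun_sum
  intro a _
  apply analyticOnNhd_const.mul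
  apply AnalyticOnNhd.mul
  · exact (monc_analytic a.1).comp (analyticOnNhd_const.add (h0 0)) fun _ _ => Set.mem_univ _
  · exact (monc_analytic a.2).comp ((analyticOnNhd_const.add (h0 1)).cexp) fun _ _ => Set.mem_univ _

lemma F_real (R : Subring ℝ) (c : (ℕ × ℕ) × (ℕ × ℕ) →₀ R) (a : Fin 2 → ℝ) :
    F R c (rp a) = ((∑ i ∈ c.support, ((c i : R) : ℝ) *
      (mon i.1 (8 / 3 + a 0) * mon i.2 (Real.exp (Real.log 2 + a 1))) : ℝ) : ℂ) := by
  unfold F rp
  push_cast
  refine sum_congr rfl fun i _ => ?_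
  have e1 : (8 / 3 : ℂ) + ((a 0 : ℝ) : ℂ) = ((8 / 3 + a 0 : ℝ) : ℂ) := by push_cast; rfl
  have e2 : Complex.exp (((Real.log 2 : ℝ) : ℂ) + ((a 1 : ℝ) : ℂ)) = ((Real.exp (Real.log 2 + a 1) : ℝ) : ℂ) := by
    push_cast
    rfl
  rw [e1, e2, monc_real, monc_real]

lemma F_const (R : Subring ℝ) (c : (ℕ × ℕ) × (ℕ × ℕ) →₀ R) (hc : ∃ a, a ≠ 0 ∧ c a ≠ 0) {x : Fin 2 → ℝ} {r : ℝ}
    (hr : 0 < r) : ¬ ∃ γ, ∀ w ∈ ball (rp x) r, F R c w = γ := by
  rintro ⟨γ, hγ⟩
  have h1 := (F_analytic R c).eqOn_of_preconnected_of_eventuallyEq (analyticOnNhd_const (v := γ))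
    isPreconnected_univ (Set.mem_univ (rp x)) (by
      filter_upwards [ball_mem_nhds _ hr] with w hw
      exact hγ w hw)
  obtain ⟨G, hG⟩ : ∃ G : (ℕ × ℕ) × (ℕ × ℕ) →₀ ℝ,
      G = Finsupp.mapRange (fun s : R => (s : ℝ)) rfl c - Finsupp.single 0 γ.re := ⟨_, rfl⟩
  have hG0 : G = 0 := by
    apply finsupp_zero2
    intro N M hN hM
    have hM0 : (0 : ℝ) < M := by exact_mod_cast hM
    have h2 := h1 (Set.mem_univ (rp ![(N : ℝ) - 8 / 3, Real.log M - Real.log 2]))
    simp only at h2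
    rw [F_real] at h2
    have h3 := congrArg Complex.re h2
    rw [Complex.ofReal_re] at h3
    have e1 : (8 / 3 : ℝ) + (![(N : ℝ) - 8 / 3, Real.log M - Real.log 2] : Fin 2 → ℝ) 0 = N := by
      show (8 / 3 : ℝ) + ((N : ℝ) - 8 / 3) = N
      ring
    have e2 : Real.exp (Real.log 2 + (![(N : ℝ) - 8 / 3, Real.log M - Real.log 2] : Fin 2 → ℝ) 1) = M := by
      show Real.exp (Real.log 2 + (Real.log M - Real.log 2)) = M
      rw [show Real.log 2 + (Real.log M - Real.log 2) = Real.log M by ring, Real.exp_log hM0]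
    rw [e1, e2] at h3
    have e3 : ∀ (a : ℕ × ℕ) (K : ℕ), mon a (K : ℝ) = mnat a K := by
      intro a K
      unfold mon mnat
      rw [Real.rpow_natCast]
    rw [hG, Finsupp.sum_sub_index (fun a s t => by ring), Finsupp.sum_mapRange_index (fun a => zero_mul _),
      Finsupp.sum_single_index (zero_mul _)]
    have e4 : mnat ((0 : (ℕ × ℕ) × (ℕ × ℕ)).1) N * mnat ((0 : (ℕ × ℕ) × (ℕ × ℕ)).2) M = 1 := by
      unfold mnat
      norm_num
    rw [e4, mul_one, sub_eq_zero, ← h3]
    unfold Finsupp.sum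
    refine sum_congr rfl fun a _ => ?_
    rw [e3, e3]
  obtain ⟨a, ha0, ha⟩ := hc
  apply ha
  have h2 := DFunLike.congr_fun hG0 a
  rw [hG, Finsupp.sub_apply, Finsupp.mapRange_apply, Finsupp.single_eq_of_ne ha0, sub_zero] at h2
  exact Subtype.ext h2

open Classical in
theorem result :
    -- without omitted terms the numbers are `π` and `e`
    piE ∅ = Real.pi ∧ eE ∅ = Real.exp 1 ∧
    ∃ C : ℝ, 0 < C ∧ ∀ A : Set ℕ, NotTooSparse A → ∀ (M : ℕ) (r : ℝ), 0 < r → ∀ R : Subring ℝ, Countable R →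
      ∃ E : Set ℕ, E ⊆ A ∧ (∀ m ∈ E, 1 ≤ m ∧ M ≤ m) ∧
        (∀ K : ℕ, 16 ≤ K → (({m : ℕ | m ∈ E ∧ m ≤ K}.ncard : ℕ) : ℝ) ≤
          C * Real.log (Real.log (Real.log K))) ∧
        |piE E - Real.pi| < r ∧ |eE E - Real.exp 1| < r ∧
        -- the powers of all integers `n ≥ 2` are transcendental over `R`
        (∀ n : ℕ, 2 ≤ n → Transcendental R ((n : ℝ) ^ piE E) ∧ Transcendental R ((n : ℝ) ^ eE E)) ∧
        -- all monomials are linearly independent over `R`
        LinearIndependent R (mm E) ∧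
        -- and their combinations are jointly normal
        ∀ (n : ℕ) (c : Fin n → ((ℕ × ℕ) × (ℕ × ℕ) →₀ R)),
          (∀ v : Fin n → ℤ, v ≠ 0 → ∃ a, a ≠ 0 ∧ (∑ j, v j • c j) a ≠ 0) →
          ∀ b : ℕ, 2 ≤ b → JointlyNormal b fun j => Finsupp.linearCombination R (mm E) (c j) := by
  refine ⟨piE_empty, eE_empty, ?_⟩
  obtain ⟨C, hC, hmain⟩ := linOne
  refine ⟨C, hC, fun A hA M r hr R hR => ?_⟩
  obtain ⟨ρ, hρ, hρr⟩ := Metric.continuousAt_iff.1 (Real.continuous_exp.continuousAt (x := (1 : ℝ))) r hr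
  obtain ⟨r', hr'⟩ : ∃ r', r' = min r ρ := ⟨_, rfl⟩
  have hr0 : 0 < r' := by rw [hr']; exact lt_min hr hρ
  obtain ⟨E, z, _, hEA, hEK, hl, hz, _, hfreq, _⟩ := hmain 2 serPE (by norm_num) linInd_PE r' hr0 A hA M
    (Set.range (F R)) (Set.countable_range _) (by
      rintro _ ⟨c, rfl⟩
      exact (F_analytic R c).mono (Set.subset_univ _)) (by
      rintro _ ⟨c, rfl⟩ a _
      rw [F_real, Complex.ofReal_im]) R hR
  have h0E : 0 ∉ E := fun h => by
    have := (hEA 0 h).2.2
    omega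
  have e0 : z 0 = ∑' n : ℕ, if n + 1 ∈ E then 0 else up2 (n + 1) :=
    tendsto_nhds_unique (hl 0) (tendsto_omit hasSum_up2 h0E)
  have e1 : z 1 = ∑' n : ℕ, if n + 1 ∈ E then 0 else ue (n + 1) :=
    tendsto_nhds_unique (hl 1) (tendsto_omit hasSum_ue h0E)
  have e2 : piE E = 8 / 3 + z 0 := by rw [piE_eq h0E, e0]
  have e3 : eE E = Real.exp (Real.log 2 + z 1) := by rw [eE_eq, e1]
  have hz0 : |z 0 - (Real.pi - 8 / 3)| < r' := hz 0
  have hz1 : |z 1 - (1 - Real.log 2)| < r' := hz 1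
  have hfr : ∀ c : ((ℕ × ℕ) × (ℕ × ℕ) →₀ R), (∃ a, a ≠ 0 ∧ c a ≠ 0) → ∀ b : ℕ, 2 ≤ b →
      Freq b (Finsupp.linearCombination R (mm E) c) := by
    intro c hc b hb
    have h1 := hfreq _ ⟨c, rfl⟩ (F_const R c hc hr0) b hb
    rw [F_real, Complex.ofReal_re, ← e2, ← e3] at h1
    exact h1
  have hlin : LinearIndependent R (mm E) := by
    rw [linearIndependent_iff]
    intro c hc
    by_cases h : ∃ a, a ≠ 0 ∧ c a ≠ 0
    · exfalso
      exact freq_ne_zero (hfr c h 2 le_rfl) hc
    · push Not at h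
      have h1 : c = Finsupp.single 0 (c 0) := by
        ext a
        by_cases ha : a = 0
        · rw [ha, Finsupp.single_eq_same]
        · rw [Finsupp.single_eq_of_ne ha, h a ha]
      rw [h1, Finsupp.linearCombination_single] at hc
      have h2 : mm E 0 = 1 := by
        unfold mm mon
        simp
      rw [h2] at hc
      have h3 : ((c 0 : R) : ℝ) = 0 := by
        have h4 : (c 0) • (1 : ℝ) = ((c 0 : R) : ℝ) * 1 := rfl
        rw [h4, mul_one] at hc
        exact hc
      rw [h1, Subtype.ext h3 (a2 := (0 : R)), Finsupp.single_zero]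
  refine ⟨E, fun k hk => (hEA k hk).1, fun k hk => ⟨(hEA k hk).2.2, (hEA k hk).2.1⟩, hEK, ?_, ?_, ?_, hlin, ?_⟩
  · rw [e2]
    have h1 : 8 / 3 + z 0 - Real.pi = z 0 - (Real.pi - 8 / 3) := by ring
    rw [h1]
    exact hz0.trans_le (by rw [hr']; exact min_le_left _ _)
  · rw [e3]
    have h1 : dist (Real.log 2 + z 1) 1 < ρ := by
      rw [Real.dist_eq]
      have h2 : Real.log 2 + z 1 - 1 = z 1 - (1 - Real.log 2) := by ring
      rw [h2]
      exact hz1.trans_le (by rw [hr']; exact min_le_right _ _)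
    have h3 := hρr h1
    rwa [Real.dist_eq] at h3
  · intro n hn
    have hn1 : 1 < n := by omega
    have hpow : ∀ k : ℕ, 1 ≤ n ^ k := fun k => Nat.one_le_pow _ _ (by omega)
    have hkey : ∀ (φ : ℕ → (ℕ × ℕ) × (ℕ × ℕ)) (x : ℝ), Function.Injective φ → (∀ k, mm E (φ k) = x ^ k) →
        Transcendental R x := by
      intro φ x hφ hx
      have h1 := hlin.comp φ hφ
      rw [transcendental_iff]
      intro p hp
      rw [Polynomial.aeval_eq_sum_range] at hp
      rw [linearIndependent_iff'] at h1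
      have h2 := h1 (range (p.natDegree + 1)) (fun i => p.coeff i) (by
        rw [← hp]
        refine sum_congr rfl fun i _ => ?_
        simp only [Function.comp]
        rw [hx])
      ext i
      by_cases hi : i ∈ range (p.natDegree + 1)
      · rw [h2 i hi]
        simp
      · rw [mem_range, not_lt] at hi
        rw [Polynomial.coeff_eq_zero_of_natDegree_lt (by omega), Polynomial.coeff_zero]
    have hcast : ∀ k : ℕ, (((n ^ k - 1 : ℕ) : ℝ) + 1) = (n : ℝ) ^ k := by
      intro k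
      rw [Nat.cast_sub (hpow k)]
      push_cast
      ring
    have hinj : ∀ k l : ℕ, n ^ k - 1 = n ^ l - 1 → k = l := by
      intro k l h
      have h1 := hpow k
      have h2 := hpow l
      have h3 : n ^ k = n ^ l := by omega
      exact Nat.pow_right_injective hn1 h3
    constructor
    · apply hkey (fun k => ((0, n ^ k - 1), (0, 0)))
      · intro k l hkl
        simp only [Prod.mk.injEq] at hkl
        exact hinj k l hkl.1.2
      · intro k
        unfold mm mon
        simp only [pow_zero, one_mul, CharP.cast_eq_zero, zero_add, Real.one_rpow, mul_one]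
        rw [hcast, ← Real.rpow_natCast, ← Real.rpow_mul (by positivity), mul_comm, Real.rpow_mul (by positivity),
          Real.rpow_natCast]
    · apply hkey (fun k => ((0, 0), (0, n ^ k - 1)))
      · intro k l hkl
        simp only [Prod.mk.injEq] at hkl
        exact hinj k l hkl.2.2
      · intro k
        unfold mm mon
        simp only [pow_zero, one_mul, CharP.cast_eq_zero, zero_add, Real.one_rpow]
        rw [hcast, ← Real.rpow_natCast, ← Real.rpow_mul (by positivity), mul_comm, Real.rpow_mul (by positivity),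
          Real.rpow_natCast]
  · intro n c hc b hb
    apply jn_of_nt
    apply nt_of_freq b n _ hb
    intro v hv
    have h1 := hfr _ (hc v hv) b hb
    have h2 : ∑ j, (v j : ℝ) * Finsupp.linearCombination R (mm E) (c j) =
        Finsupp.linearCombination R (mm E) (∑ j, v j • c j) := by
      rw [map_sum]
      refine sum_congr rfl fun j _ => ?_
      rw [map_zsmul, zsmul_eq_mul]
    rw [h2]
    exact h1

end Pool.Agent.Results.MP_ee2255_nt.AllBases
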