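import Mathlib
import Pool.Agent.H594.ML.IntC
import Pool.Agent.H594.ML.Exc
import Pool.Graph.R_seed8.H340R2.LW

/-!
# Algebraic numbers with an exceptional power on subvarieties of tori

Let `t_1, ..., t_r` be any complex numbers, for instance `π` and `e`. A nonzero algebraic number `a`
is called exceptional (of degree `D`) if a power `a ^ x = e ^ (x l)`, `e ^ l = a`, with SOME
transcendental exponent `x`, which is the value at `t` of a quotient of two polynomials with algebraic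
coefficients of degree at most `D` in each variable, is algebraic, or more generally of the form
`e ^ γ α_1 ^ β_1 ⋯ α_k ^ β_k` with algebraic `γ`, `α_i`, `β_i`. It is an open question whether there
are exceptional integers `n ≥ 2` for the exponents `π` and `e`. Let `G` be the group of all numbers a
positive power of which is a product of exceptional numbers and of their inverses.

By a theorem of six exponentials type for all these exponents at once (starting files
`Pool.Agent.K3h86.PT`) the group `G` has finite rank. We combine this with a theorem of Mordell-Lang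
type for groups of finite rank (starting files `Pool.Agent.Q204.UF`), from which we deduce the theorem
for closed subsets of tori over the complex numbers (`Pool.Agent.H594.ML.torC_finite`) and for pairs
of rational functions (`Pool.Agent.H594.ML.rat_finite`). The result: on every algebraic subset `X` of
a torus only finitely many points with coordinates in `G` do not lie on a translate of a subtorus of
positive dimension which is contained in `X`. There is no assumption on the degrees of the points.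
For example there are only finitely many algebraic numbers `z` such that `z ^ x` and `(z + 1) ^ y` are
algebraic for some transcendental `x`, `y` of the form `a π + b e + c`, `a, b, c` algebraic.
-/

set_option autoImplicit false

namespace Pool.Agent.Results.MP_ee2255_nt.PointsOnVarieties

open Pool.Agent.H594.ML
open Pool.Agent.HP778 (mem_of_exp natCast_cpow)

/-- The linear combinations, with algebraic coefficients, of `1` and of logarithms of algebraic
numbers. -/
noncomputable def LogForms : Submodule (algebraicClosure ℚ ℂ) ℂ :=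
  Submodule.span (algebraicClosure ℚ ℂ) ({1} ∪ {z : ℂ | IsAlgebraic ℚ (Complex.exp z)})

/-- The numbers `e ^ z` with `z` in `LogForms`, i.e. the numbers `e ^ γ α_1 ^ β_1 ⋯ α_k ^ β_k` with
algebraic `γ`, `α_i ≠ 0`, `β_i`. All nonzero algebraic numbers are of this form. -/
def Prods : Set ℂ := {x | ∃ z ∈ LogForms, Complex.exp z = x}

/-- The transcendental numbers `P(t) / Q(t)` with polynomials `P`, `Q` with algebraic coefficients
and of degree at most `D` in each of the `r` variables. -/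
def ratExps {r : ℕ} (t : Fin r → ℂ) (D : ℕ) : Set ℂ :=
  {x | Transcendental ℚ x ∧ ∃ P Q : MvPolynomial (Fin r) (algebraicClosure ℚ ℂ),
    (∀ i, P.degreeOf i ≤ D) ∧ (∀ i, Q.degreeOf i ≤ D) ∧ MvPolynomial.aeval t Q ≠ 0 ∧
    x = MvPolynomial.aeval t P / MvPolynomial.aeval t Q}

/-- The nonzero algebraic numbers `a = e ^ l` (`l` is any logarithm of `a`) such that
`a ^ x = e ^ (x l)` is in `Prods` for SOME `x` in `ratExps t D`. -/
def Exc {r : ℕ} (t : Fin r → ℂ) (D : ℕ) : Set ℂ :=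
  {a | IsAlgebraic ℚ a ∧ ∃ l : ℂ, Complex.exp l = a ∧
    ∃ x ∈ ratExps t D, Complex.exp (x * l) ∈ Prods}

/-- The complex numbers a positive power of which is a product of elements of `Exc t D` and of
inverses of such elements. -/
def ExcHull {r : ℕ} (t : Fin r → ℂ) (D : ℕ) : Set ℂ :=
  {a | ∃ u : ℂˣ, (u : ℂ) = a ∧ ∃ k : ℕ, 0 < k ∧
    u ^ k ∈ Subgroup.closure {v : ℂˣ | (v : ℂ) ∈ Exc t D}}

/-- `(π, e)` -/
noncomputable def pie : Fin 2 → ℂ := ![((Real.pi : ℝ) : ℂ), ((Real.exp 1 : ℝ) : ℂ)]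

theorem alg_prods {x : ℂ} (hx : IsAlgebraic ℚ x) (hx0 : x ≠ 0) : x ∈ Prods := by
  refine ⟨Complex.log x, ?_, Complex.exp_log hx0⟩
  refine Submodule.subset_span (Or.inr ?_)
  change IsAlgebraic ℚ (Complex.exp (Complex.log x))
  rwa [Complex.exp_log hx0]

theorem exc_hull {r : ℕ} (t : Fin r → ℂ) (D : ℕ) :
    ∃ Γ : Subgroup (Pool.Agent.Helper259.AbsHt.Qbar)ˣ, Γ.FG ∧
      ∀ a ∈ ExcHull t D, ∃ u ∈ Pool.Agent.Y215.SK.DivHull Γ, a = sg u := by
  obtain ⟨Γ, hΓ, h⟩ := hull_multi t (fun j : Fin 0 => (0 : ℂ)) D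
  refine ⟨Γ, hΓ, fun a ha => mulHull_hull (A := Exc t D) ?_ ha⟩
  rintro a ⟨ha, l, rfl, x, ⟨hx, P, Q, hP, hQ, hQ0, hxe⟩, z, hz, hze⟩
  refine h l ha ⟨x, 0, fun _ => 0, ⟨P, Q, 0, fun _ => 0, hP, hQ, ?_, ?_, hQ0, hxe, ?_, ?_⟩, hx, ?_⟩
  · intro i
    simp
  · intro j i
    simp
  · simp
  · intro j
    simp
  · have h1 := mem_of_exp hz hze.symm
    simpa using h1

theorem nat_exc {r : ℕ} (t : Fin r → ℂ) (D : ℕ) {n : ℕ} (hn : 1 ≤ n) {x : ℂ}
    (hx : x ∈ ratExps t D) (h : (n : ℂ) ^ x ∈ Prods) : (n : ℂ) ∈ ExcHull t D := by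
  refine subset_mulHull (A := Exc t D) ?_ (by exact_mod_cast (by omega : n ≠ 0))
  refine ⟨isAlgebraic_natCast n, ((Real.log n : ℝ) : ℂ), ?_, x, hx, ?_⟩
  · rw [← Complex.ofReal_exp, Real.exp_log (by exact_mod_cast hn)]
    simp
  · rw [← natCast_cpow hn]
    exact h

theorem pi_exp : ((Real.pi : ℝ) : ℂ) ∈ ratExps pie 1 := by
  classical
  refine ⟨Pool.Agent.HP778.ofReal_transcendental Pool.Agent.H340R2.LW.transcendental_pi,
    MvPolynomial.X 0, 1, fun i => ?_, fun i => ?_, ?_, ?_⟩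
  · rw [MvPolynomial.degreeOf_X]
    split_ifs <;> simp
  · simp
  · simp
  · simp [pie]

theorem e_exp : ((Real.exp 1 : ℝ) : ℂ) ∈ ratExps pie 1 := by
  classical
  refine ⟨Pool.Agent.HP778.ofReal_transcendental Pool.Agent.H340R2.LW.transcendental_exp_one,
    MvPolynomial.X 1, 1, fun i => ?_, fun i => ?_, ?_, ?_⟩
  · rw [MvPolynomial.degreeOf_X]
    split_ifs <;> simp
  · simp
  · simp
  · simp [pie]

theorem shifts_finite {r : ℕ} (t : Fin r → ℂ) (D : ℕ) (c : ℂ) (hc : c ≠ 0) :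
    {z : ℂ | z ∈ ExcHull t D ∧ z + c ∈ ExcHull t D}.Finite := by
  obtain ⟨Γ, hΓ, h⟩ := exc_hull t D
  have h1 := rat_finite Γ hΓ _ _ (indep_linear (a := 0) (b := -c) (by
    intro h0
    apply hc
    rw [← neg_neg c, ← h0, neg_zero]))
  refine h1.subset ?_
  rintro z ⟨hz1, hz2⟩
  obtain ⟨u, hu, e1⟩ := h _ hz1
  obtain ⟨v, hv, e2⟩ := h _ hz2
  refine ⟨⟨u, hu, ?_⟩, v, hv, ?_⟩
  · rw [eval_linear, sub_zero]
    exact e1
  · rw [eval_linear, sub_neg_eq_add]
    exact e2

theorem windows (D k : ℕ) : ∃ N : ℕ, ∀ m m' : ℕ, N ≤ m → m < m' → m' ≤ m + k →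
    ∀ x ∈ ratExps pie D, ∀ y ∈ ratExps pie D, (m : ℂ) ^ x ∉ Prods ∨ (m' : ℂ) ^ y ∉ Prods := by
  have h1 : ∀ j ∈ Finset.Icc 1 k, ∃ N : ℕ, ∀ m : ℕ, N ≤ m →
      ¬ ((m : ℂ) ∈ ExcHull pie D ∧ (m : ℂ) + (j : ℂ) ∈ ExcHull pie D) := by
    intro j hj
    have hj0 : (j : ℂ) ≠ 0 := by
      have := (Finset.mem_Icc.1 hj).1
      exact_mod_cast (by omega : j ≠ 0)
    have h2 := shifts_finite pie D (j : ℂ) hj0
    have h3 : {m : ℕ | (m : ℂ) ∈ ExcHull pie D ∧ (m : ℂ) + (j : ℂ) ∈ ExcHull pie D}.Finite :=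
      Set.Finite.preimage (f := fun m : ℕ => (m : ℂ)) (Nat.cast_injective.injOn) h2
    obtain ⟨N, hN⟩ := h3.bddAbove
    refine ⟨N + 1, fun m hm h4 => ?_⟩
    have := hN h4
    omega
  choose! N hN using h1
  refine ⟨1 + ∑ j ∈ Finset.Icc 1 k, N j, fun m m' hm hm1 hm2 x hx y hy => ?_⟩
  by_contra hcon
  push Not at hcon
  have hj : m' - m ∈ Finset.Icc 1 k := Finset.mem_Icc.2 (by omega)
  have h2 : N (m' - m) ≤ m := by
    have := Finset.single_le_sum (f := N) (fun _ _ => Nat.zero_le _) hj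
    omega
  refine hN (m' - m) hj m h2 ⟨nat_exc pie D (by omega) hx hcon.1, ?_⟩
  have h3 : (m : ℂ) + ((m' - m : ℕ) : ℂ) = (m' : ℂ) := by
    rw [Nat.cast_sub hm1.le]
    ring
  rw [h3]
  exact nat_exc pie D (by omega) hy hcon.2

theorem rpow_prods {n : ℕ} (hn : 1 ≤ n) {x : ℝ} (h : ¬ Transcendental ℚ ((n : ℝ) ^ x)) :
    (n : ℂ) ^ (x : ℂ) ∈ Prods := by
  have hpos : (0 : ℝ) < n := by exact_mod_cast hn
  have h1 : (((n : ℝ) ^ x : ℝ) : ℂ) = (n : ℂ) ^ (x : ℂ) := by
    rw [Complex.ofReal_cpow hpos.le]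
    simp
  rw [← h1]
  have h2 : IsAlgebraic ℚ ((n : ℝ) ^ x) := not_not.1 h
  refine alg_prods ?_ ?_
  · exact h2.algebraMap
  · exact_mod_cast (Real.rpow_pos_of_pos hpos x).ne'

/-- **Main result.** Let `t_1, ..., t_r` be any complex numbers and `D ≥ 0`.

(1) Let `X` be the algebraic subset of the torus `𝔾_m ^ n` over the complex numbers which is defined
by the polynomials of any set `S`. Only finitely many points `z` of `X` all of whose coordinates are
in `ExcHull t D` are such that no translate `{(u ^ (m_1) z_1, ..., u ^ (m_n) z_n) : u ≠ 0}`,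
`m ∈ ℤ ^ n` nonzero, of a one-dimensional subtorus is contained in `X`.

(2) Let `f` and `g` be rational functions with complex coefficients which are multiplicatively
independent modulo constants. For all but finitely many complex numbers `z` at most one of `f(z)` and
`g(z)` is in `ExcHull t D`.

(3) In particular for `f = z` and `g = z + c`, `c ≠ 0`.

(4) For all `D` and `k` there is `N` such that for all integers `m ≠ m'` beyond `N` of distance at most
`k` and all transcendental numbers `x`, `y` which are values at `(π, e)` of quotients of polynomials of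
degree at most `D` in each variable with algebraic coefficients, `m ^ x` or `m' ^ y` is not in
`Prods`, in particular transcendental.

(5) For all sufficiently large integers `n`, both numbers `n ^ π`, `n ^ e` or both numbers
`(n + 1) ^ π`, `(n + 1) ^ e` are transcendental.

(6) All nonzero algebraic numbers are in `Prods`. -/
theorem result :
    (∀ (r : ℕ) (t : Fin r → ℂ) (D n : ℕ) (S : Set (MvPolynomial (Fin n) ℂ)),
      {z : Fin n → ℂ | (∀ j, z j ∈ ExcHull t D) ∧ (∀ F ∈ S, MvPolynomial.eval z F = 0) ∧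
        ∀ m : Fin n → ℤ, m ≠ 0 →
          ∃ u : ℂ, u ≠ 0 ∧ ∃ F ∈ S, MvPolynomial.eval (fun j => u ^ m j * z j) F ≠ 0}.Finite) ∧
    (∀ (r : ℕ) (t : Fin r → ℂ) (D : ℕ) (f g : RatFunc ℂ),
      (∀ a b : ℤ, (a ≠ 0 ∨ b ≠ 0) → ∀ c : ℂ, f ^ a * g ^ b ≠ RatFunc.C c) →
      {z : ℂ | f.eval (RingHom.id ℂ) z ∈ ExcHull t D ∧ g.eval (RingHom.id ℂ) z ∈ ExcHull t D}.Finite) ∧
    (∀ (r : ℕ) (t : Fin r → ℂ) (D : ℕ) (c : ℂ), c ≠ 0 →
      {z : ℂ | z ∈ ExcHull t D ∧ z + c ∈ ExcHull t D}.Finite) ∧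
    (∀ D k : ℕ, ∃ N : ℕ, ∀ m m' : ℕ, N ≤ m → m < m' → m' ≤ m + k →
      ∀ x ∈ ratExps pie D, ∀ y ∈ ratExps pie D, (m : ℂ) ^ x ∉ Prods ∨ (m' : ℂ) ^ y ∉ Prods) ∧
    (∃ N : ℕ, ∀ n : ℕ, N ≤ n →
      (Transcendental ℚ ((n : ℝ) ^ Real.pi) ∧ Transcendental ℚ ((n : ℝ) ^ Real.exp 1)) ∨
      (Transcendental ℚ (((n + 1 : ℕ) : ℝ) ^ Real.pi) ∧
        Transcendental ℚ (((n + 1 : ℕ) : ℝ) ^ Real.exp 1))) ∧
    (∀ x : ℂ, x ≠ 0 → IsAlgebraic ℚ x → x ∈ Prods) := by
  refine ⟨fun r t D n S => ?_, fun r t D f g hfg => ?_, fun r t D c hc => shifts_finite t D c hc,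
    windows, ?_, fun x hx0 hx => alg_prods hx hx0⟩
  · obtain ⟨Γ, hΓ, h⟩ := exc_hull t D
    refine (torC_finite S Γ hΓ).subset ?_
    rintro z ⟨h1, h2, h3⟩
    exact ⟨h2, fun j => h _ (h1 j), h3⟩
  · obtain ⟨Γ, hΓ, h⟩ := exc_hull t D
    refine (rat_finite Γ hΓ f g hfg).subset ?_
    rintro z ⟨hz1, hz2⟩
    obtain ⟨u, hu, e1⟩ := h _ hz1
    obtain ⟨v, hv, e2⟩ := h _ hz2
    exact ⟨⟨u, hu, e1⟩, v, hv, e2⟩
  · obtain ⟨N, hN⟩ := windows 1 1
    refine ⟨N + 1, fun n hn => ?_⟩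
    have h1 := fun x hx y hy => hN n (n + 1) (by omega) (by omega) (by omega) x hx y hy
    by_contra hcon
    rw [not_or, not_and_or, not_and_or] at hcon
    obtain ⟨h2, h3⟩ := hcon
    have h4 : ∃ x ∈ ratExps pie 1, (n : ℂ) ^ x ∈ Prods := by
      rcases h2 with h2 | h2
      · exact ⟨_, pi_exp, rpow_prods (by omega) h2⟩
      · exact ⟨_, e_exp, rpow_prods (by omega) h2⟩
    have h5 : ∃ y ∈ ratExps pie 1, ((n + 1 : ℕ) : ℂ) ^ y ∈ Prods := by
      rcases h3 with h3 | h3
      · exact ⟨_, pi_exp, rpow_prods (by omega) h3⟩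
      · exact ⟨_, e_exp, rpow_prods (by omega) h3⟩
    obtain ⟨x, hx, hx'⟩ := h4
    obtain ⟨y, hy, hy'⟩ := h5
    rcases h1 x hx y hy with h6 | h6
    · exact h6 hx'
    · exact h6 hy'

end Pool.Agent.Results.MP_ee2255_nt.PointsOnVarieties
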